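import Pool.Agent.Zk51.RG.Main

/-!
# The `ℓ`-adic regulators of the products of a variety with all powers of another one

Let `k` be a number field, `ℓ` a prime, let `S` be ANY smooth projective variety over `k` (for instance
the point), and let `X` be a smooth projective variety over `k` with the sign property `C⁺` (the
projector of `H^*(X̄)` to the even part is algebraic); it is known for curves, surfaces, abelian
varieties, complete intersections in projective spaces and all products of them. Let `b` be the total
Betti number of `X`, and let `ρ(n)` be the rank of the group of all cycles on `X^n` modulo numerical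
equivalence. For a set `M` of integers let

* `κ_M(n)`, a number or infinity, be the dimension of the kernel of the direct sum of the regulators
  `r_ℓ : H^i_M(S × X^n, ℚ(j))_hom ⊗ ℚ_ℓ → H¹(G_k, H^{i-1}(S × X^n, ℚ_ℓ(j)))` for all `i`, `j` with
  `2 j - i` in `M`;
* `γ_M(n)`, a number or infinity, be the dimension of the direct sum of the quotients of the groups
  `H¹_st(G_k, H^{i-1}(S × X^n, ℚ_ℓ(j)))` by the images of `r_ℓ`, for the same `i`, `j`.

For `M = ℤ` these are all degrees, for `M = {0}` the Abel–Jacobi maps, for `M = {m}` with `m < 0` the
statement `γ = 0` is the vanishing of the groups `H¹_st`. Q1 for all `S × X^n` says that `κ` and `γ` are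
zero.

**Theorem.** No conjecture is assumed.

(1) `κ_M(n) / ρ(n)` converges, for `n → ∞`, to a natural number `N(M)` or to infinity, and
`N(M ∪ M') = N(M) + N(M')` if `M` and `M'` are disjoint. `N(M) = 0` if and only if `r_ℓ` is injective
for all `S × X^n` and all `(i, j)` with `2 j - i` in `M`. If `N(M)` is finite then

* there are finitely many numerical motives `M_s`, direct summands of the numerical motives of powers of
  `X`, with sum of the ranks `N(M)`, such that `κ_M(n)` is the dimension of `⨁ Hom(M_s, h(X^n))`, for all
  `n`. In particular all kernels are finite-dimensional;
* compositions of `N(M)` numerically trivial correspondences between powers of `X` act as zero on the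
  kernels;
* if `S` is the point and `0` is in `M` (Abel–Jacobi maps), then `y^(N(M) + 2) = 0` for each
  homologically trivial self-correspondence `y` of each power of `X`;
* `r_ℓ` is injective for all `n` and all `(i, j)` with `2 j - i` in `M` outside a set of at most `N(M)`
  values of `2 j - i`.

(2) The same holds for the cokernels `γ_M(n)`, with a limit `N'(M)`: `N'(M) = 0` if and only if the
images are the groups `H¹_st` for all `n`; if `N'(M)` is finite then `γ_M(n)` is given by numerical
motives with sum of the ranks `N'(M)`, compositions of `N'(M)` numerically trivial correspondences map
`H¹_st` to the image of `r_ℓ`, and the images are equal to `H¹_st` outside a set of at most `N'(M)`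
values of `2 j - i`.

(3) (Zero-one law.) If the numerical motive of each `X^n` is a direct summand of a sum of numerical
motives of varieties `Z` for which `r_ℓ` is known to be injective for `S × Z` (with image `H¹_st`) in
these degrees then `N(M)` (or `N'(M)`) is `0` or infinity. If `S` is the point then this holds for
spectra `Z` of number fields (Borel, Soulé), hence for all products `X` of surfaces with
`p_g = q = 0`, and in general for all `X` with cohomology generated by cycles over `k̄`.

(4) (One inequality.) If `κ_M(n) < ρ(n) / 2` for one `n ≥ 128 (m + 1)^2 b^(2 m + 6)` then `r_ℓ` is injective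
for `S × X^m` and all `(i, j)` with `2 j - i` in `M`, and similarly `γ_M(n) < ρ(n) / 2` implies that the
image is `H¹_st`. In particular each failure of Q1 for one `S × X^m` forces `κ` or `γ` to be at least
`ρ(n) / 2` for ALL large `n`.

The setting. `Λ` is `ℚ_ℓ`, `C` is the category of the smooth projective varieties over `k` with the
groups `CH^*(X × Y) ⊗ ℚ_ℓ` (all codimensions) as morphisms, `T = X`, which is self-dual, `tp T n = X^n`,
and `R` is the `ℓ`-adic cohomology with coefficients extended to an algebraic closure of `ℚ_ℓ`.
`IsPow` says that the endomorphisms of the unit object are the elements of `ℚ_ℓ`, that `C⁺` holds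
for `X` and that the unit object is a direct summand of `T` (a closed point). Since `k` has
characteristic zero, `CH^*(X)_hom ⊗ ℚ_ℓ` is the kernel of the cycle class map on `CH^*(X) ⊗ ℚ_ℓ`. The
hypotheses `IsRegulators` on the data (`Regulators`) are standard facts: the action of
correspondences and the compatibility of the regulators with it, and the fact that the regulators of
elements of `K`-groups are semistable classes (Nekovář and Nizioł at the places above `ℓ`).

Idea of the proof. Kernels and cokernels (in the semistable classes) are additive functors on `C`, to
which the law of the dimensions of the values of additive functors on the powers of an object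
applies (`Pool.Agent.N64.AF`, helper64 and others). A composition of two homologically trivial
correspondences is in the kernel of the Abel–Jacobi map.
-/

set_option autoImplicit false

namespace Pool.Agent.Results.MP_76188c_nt.AnyVarietyAllPowers

open CategoryTheory MonoidalCategory
open Pool.Agent.Y112.SR Pool.Agent.Y112.KD Pool.Agent.N64.AF Pool.Agent.Zk51.RG
open Pool.Agent.Zk51.RG.Regulators

universe v u w t x

/-- The `ℓ`-adic regulators of the products of `S` with all powers of a variety over a number field. -/
theorem result {C : Type u} [Category.{v} C] [Preadditive C] [MonoidalCategory C]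
    [MonoidalPreadditive C] [SymmetricCategory C] [RightRigidCategory C]
    {Λ : Type t} [Field Λ] [CharZero Λ] [Linear Λ C] [MonoidalLinear Λ C]
    {K : Type w} [Field K] [IsAlgClosed K] [Algebra Λ K] (R : SuperRealisation C K)
    (T : C) [ExactPairing T T] (h : IsPow Λ R T)
    (D : Regulators.{v, u, t, x} Λ C) (hD : D.IsRegulators R) :
    (∃ N : Set ℤ → ℕ∞, IsAdditive N ∧ ∀ M, D.KerLaw R T M (N M)) ∧
    (∃ N : Set ℤ → ℕ∞, IsAdditive N ∧ ∀ M, D.CokLaw R T M (N M)) ∧
    ∀ M, D.Criterion R T M :=
  ⟨hD.kerLaw h, hD.cokLaw h, hD.criterion h⟩

end Pool.Agent.Results.MP_76188c_nt.AnyVarietyAllPowers
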